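import Mathlib
import Pool.Agent.Lib.helper31.SlitC

set_option autoImplicit false

namespace Pool.Agent.Results.MP_280d4a_an.WeightedTwo

open Set Filter Topology MeasureTheory Real Pool.Agent.Lib.helper31.Slit

lemma det_mul (c : ℂ) :
    ((ContinuousLinearMap.toSpanSingleton ℂ c).restrictScalars ℝ).det = ‖c‖ ^ 2 := by
  rw [ContinuousLinearMap.det, ← LinearMap.det_toMatrix Complex.basisOneI, Matrix.det_fin_two]
  simp [LinearMap.toMatrix_apply, Complex.sq_norm, Complex.normSq_apply]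

variable {r : ℕ}

lemma generic_ae (θ : Fin r → ℝ) : ∀ᵐ t : ℝ, ∀ j, sin (t - θ j) ≠ 0 := by
  have hc : (range fun x : Fin r × ℤ => θ x.1 + x.2 * π).Countable := countable_range _
  filter_upwards [hc.ae_notMem volume] with t ht j hj
  obtain ⟨k, hk⟩ := Real.sin_eq_zero_iff.mp hj
  exact ht ⟨(j, k), by simp only; linarith⟩

lemma Zd_meas (p θ : Fin r → ℝ) : Measurable (Zd p θ) := by
  unfold Zd; fun_prop

lemma Zf_meas (p θ : Fin r → ℝ) (M : ℝ) : Measurable (Zf p θ M) := by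
  unfold Zf
  refine Measurable.sub (Measurable.add (by fun_prop) (Finset.measurable_sum _ fun j _ => ?_))
    measurable_const
  exact measurable_const.mul (Complex.measurable_log.comp (by fun_prop))

lemma line_est (hr : 1 ≤ r) {p θ : Fin r → ℝ} {M S ε : ℝ} (hp : ∀ j, 0 ≤ p j)
    (hs : ∑ j, p j = r) (hθ : ∀ j, θ j ∈ Ioc (-π) π) {N : ℕ} {t : ℝ}
    (ht : t ∈ Ioo 0 (2 * π * N)) (hg : ∀ j, sin (t - θ j) ≠ 0)
    (hM : (Zf p θ M ⟨0, t⟩).re ≤ 0) (hS : 0 ≤ S) (hS2 : exp (-S) ≤ 1 / 2)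
    (hε : 0 < ε) (hε1 : ε ≤ 1) {x0 : ℝ} (hx0 : x0 = r * S / 2 - M - 2 * (r * exp (-S)))
    (hx : 0 ≤ x0) :
    ENNReal.ofReal (r * (x0 + log 2 - exp (-x0) - ε - r / 4 * S)) ≤
      ∫⁻ s in Ioo (-S) 0, ENNReal.ofReal (‖Zd p θ ⟨s, t⟩‖ ^ 2 *
        rho2 (arms p θ N) (ε ^ 2 / 8) (Zf p θ M ⟨s, t⟩)) := by
  have h0 : 0 < ε ^ 2 / 8 := by positivity
  have h1 : ε ^ 2 / 8 ≤ π / 2 := by nlinarith [pi_gt_three]
  have hr0 : (0 : ℝ) < r := by exact_mod_cast hr
  have hpt : ∀ s : ℝ, (⟨s, t⟩ : ℂ) = (s : ℂ) + t * Complex.I := fun s => by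
    apply Complex.ext <;> simp
  have hsl : ∀ (s : ℝ) (j : Fin r), 1 - Complex.exp ((⟨s, t⟩ : ℂ) - θ j * Complex.I) ∈
      Complex.slitPlane := fun s j => slit_of_sin (u := ⟨s, t⟩) (hg j)
  have hγ : ∀ s : ℝ, HasDerivAt (fun s : ℝ => Zf p θ M ⟨s, t⟩) (Zd p θ ⟨s, t⟩) s := fun s => by
    have h2 := hasDerivAt_Zf p θ M (hsl s)
    have h3 : HasDerivAt (fun w : ℂ => w + t * Complex.I) 1 (s : ℂ) :=
      (hasDerivAt_id _).add_const _
    rw [hpt s] at h2
    have h4 := (HasDerivAt.comp (h₂ := Zf p θ M) (h := fun w : ℂ => w + t * Complex.I) (s : ℂ)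
      h2 h3).comp_ofReal
    simp only [hpt]
    simpa using h4
  have hc : Continuous fun s : ℝ => Zd p θ ⟨s, t⟩ := by
    unfold Zd
    refine continuous_const.add (continuous_finset_sum _ fun j _ => continuous_const.mul ?_)
    refine Continuous.div ?_ ?_ fun s => Complex.slitPlane_ne_zero (hsl s j)
    · simp only [hpt]; fun_prop
    · simp only [hpt]; fun_prop
  have hγc : Continuous fun s : ℝ => Zf p θ M ⟨s, t⟩ :=
    continuous_iff_continuousAt.mpr fun s => (hγ s).continuousAt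
  have hL := line_bound (A := arms p θ N) h0 h1 hγ hc (a := -S) (b := 0) (by linarith) hr0
  have hlow := Om_lower (Tm_im_pos (arms p θ N) h0 (Zf p θ M ⟨-S, t⟩))
    (Tm_im_lt (arms p θ N) h1 _)
  have hre : x0 ≤ (Tm (arms p θ N) (ε ^ 2 / 8) (Zf p θ M ⟨-S, t⟩)).re := by
    rw [hx0]; exact Zf_re_ge θ M hp hs (u := ⟨-S, t⟩) rfl hS2
  have hlow2 := hlow (hx.trans hre)
  have hexp := Real.exp_le_exp.mpr (neg_le_neg hre)
  have hup := Om_upper (Tm_im_pos (arms p θ N) h0 (Zf p θ M ⟨0, t⟩))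
    (Tm_im_lt (arms p θ N) h1 _) hM hε hε1
    (psi_mem h0.le (Zf_im_mem hr M hs hθ ht hg)).le
  have hg2 : Continuous fun s : ℝ => ‖Zd p θ ⟨s, t⟩‖ ^ 2 *
      rho2 (arms p θ N) (ε ^ 2 / 8) (Zf p θ M ⟨s, t⟩) :=
    (hc.norm.pow 2).mul ((rho2_cont h0 h1).comp hγc)
  rw [← ofReal_integral_eq_lintegral_ofReal (hg2.integrableOn_Icc.mono_set Ioo_subset_Icc_self)
    (Eventually.of_forall fun s => by
      simp only [Pi.zero_apply]; unfold rho2; positivity),
    ← integral_Ioc_eq_integral_Ioo, ← intervalIntegral.integral_of_le (by linarith)]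
  refine ENNReal.ofReal_le_ofReal ?_
  set I := ∫ s in (-S)..0, ‖Zd p θ ⟨s, t⟩‖ ^ 2 * rho2 (arms p θ N) (ε ^ 2 / 8) (Zf p θ M ⟨s, t⟩)
  have : x0 + log 2 - exp (-x0) - ε - r / 4 * S ≤ I / r := by linarith
  rw [le_div_iff₀ hr0] at this
  linarith

lemma main_ineq (hr : 1 ≤ r) {p θ : Fin r → ℝ} {M S ε : ℝ} (hp : ∀ j, 0 ≤ p j)
    (hs : ∑ j, p j = r) (hθ : ∀ j, θ j ∈ Ioc (-π) π) (N : ℕ)
    (hM : ∀ t : ℝ, (∀ j, sin (t - θ j) ≠ 0) → (Zf p θ M ⟨0, t⟩).re ≤ 0)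
    (hS : 0 ≤ S) (hS2 : exp (-S) ≤ 1 / 2)
    (hε : 0 < ε) (hε1 : ε ≤ 1) {x0 X : ℝ} (hx0 : x0 = r * S / 2 - M - 2 * (r * exp (-S)))
    (hX : X = r * S / 2 - M + r * exp (-S)) (hx : 0 ≤ x0) :
    r * (x0 + log 2 - exp (-x0) - ε - r / 4 * S) * (2 * π * N) ≤
      (log (exp (2 * X) + 1) / 2 + log 2) * (π * r * (N + 2)) := by
  have hpi := pi_pos
  have h0 : 0 < ε ^ 2 / 8 := by positivity
  have h1 : ε ^ 2 / 8 ≤ π / 2 := by nlinarith [pi_gt_three]
  have hr0 : (0 : ℝ) < r := by exact_mod_cast hr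
  have hN : (0 : ℝ) ≤ N := Nat.cast_nonneg _
  have hl2 : 0 < log 2 := Real.log_pos (by norm_num)
  set A := arms p θ N with hA
  have hAne : A.Nonempty := by
    refine Finset.Nonempty.image ⟨(⟨0, hr⟩, 0), ?_⟩ _
    simp
  set R : Set ℂ := {ζ : ℂ | ζ.re ∈ Ioo (-S) 0 ∧ ζ.im ∈ Ioo 0 (2 * π * N)} with hR
  have hRm : MeasurableSet R :=
    (Complex.measurable_re measurableSet_Ioo).inter (Complex.measurable_im measurableSet_Ioo)
  have hcv := lintegral_image_eq_lintegral_abs_det_fderiv_mul volume hRm (f := Zf p θ M)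
    (f' := fun u => (ContinuousLinearMap.toSpanSingleton ℂ (Zd p θ u)).restrictScalars ℝ)
    (fun u hu => ((hasDerivAt_Zf p θ M fun j =>
      slit_of_re_neg hu.1.2 (θ j)).hasFDerivAt.restrictScalars ℝ).hasFDerivWithinAt)
    ((Zf_inj hr θ M hp hs).mono fun u hu => hu.1.2)
    (fun ζ => ENNReal.ofReal (rho2 A (ε ^ 2 / 8) ζ))
  have hsub : Zf p θ M '' R ⊆
      {ζ : ℂ | ζ.re ∈ Iic X ∧ ζ.im ∈ Icc (-(π * r * N) - r * π) (r * π)} := by
    rintro _ ⟨u, hu, rfl⟩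
    obtain ⟨b1, b2⟩ := Zf_im_bounds θ M hp hs u
    refine ⟨?_, ?_, ?_⟩
    · rw [hX]; exact Zf_re_le θ M hp hs hu.1.1.le hu.1.2
    · have := mul_le_mul_of_nonneg_left hu.2.2.le hr0.le
      nlinarith
    · have := mul_le_mul_of_nonneg_left hu.2.1.le hr0.le
      nlinarith
  have hbox := (lintegral_mono_set hsub).trans (box_bound (X := X) hAne h0 h1
    (lo := -(π * r * N) - r * π) (hi := r * π) (by nlinarith [mul_nonneg (mul_pos hpi hr0).le hN]))
  rw [hcv] at hbox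
  have heq : ∀ u : ℂ, ENNReal.ofReal
      |((ContinuousLinearMap.toSpanSingleton ℂ (Zd p θ u)).restrictScalars ℝ).det| *
      ENNReal.ofReal (rho2 A (ε ^ 2 / 8) (Zf p θ M u)) =
      ENNReal.ofReal (‖Zd p θ u‖ ^ 2 * rho2 A (ε ^ 2 / 8) (Zf p θ M u)) := fun u => by
    rw [det_mul, abs_of_nonneg (by positivity), ENNReal.ofReal_mul (by positivity)]
  simp_rw [heq] at hbox
  have hm : Measurable fun u : ℂ =>
      ENNReal.ofReal (‖Zd p θ u‖ ^ 2 * rho2 A (ε ^ 2 / 8) (Zf p θ M u)) :=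
    (((Zd_meas p θ).norm.pow_const 2).mul
      ((rho2_cont h0 h1).measurable.comp (Zf_meas p θ M))).ennreal_ofReal
  have e := lint_rect _ hm (Ioo (-S) 0) (Ioo 0 (2 * π * N))
  have hlow : ∫⁻ _ in Ioo 0 (2 * π * N),
      ENNReal.ofReal (r * (x0 + log 2 - exp (-x0) - ε - r / 4 * S)) ≤
      ∫⁻ t in Ioo 0 (2 * π * N), ∫⁻ s in Ioo (-S) 0, ENNReal.ofReal (‖Zd p θ ⟨s, t⟩‖ ^ 2 *
        rho2 A (ε ^ 2 / 8) (Zf p θ M ⟨s, t⟩)) := by
    refine setLIntegral_mono_ae' measurableSet_Ioo ?_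
    filter_upwards [generic_ae θ] with t hg ht
    exact line_est hr hp hs hθ ht hg (hM t hg) hS hS2 hε hε1 hx0 hx
  have hfin := hlow.trans (e.ge.trans hbox)
  rw [setLIntegral_const, Real.volume_Ioo, sub_zero, mul_comm,
    ← ENNReal.ofReal_mul (by positivity)] at hfin
  have hK : 0 ≤ log (exp (2 * X) + 1) / 2 := by
    have := Real.log_nonneg (x := exp (2 * X) + 1) (by linarith [exp_pos (2 * X)])
    linarith
  have hd : r * π - (-(π * r * N) - r * π) = π * r * (N + 2) := by ring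
  rw [hd, ENNReal.ofReal_le_ofReal_iff (by positivity)] at hfin
  have hc := mul_le_mul_of_nonneg_right (arms_card p θ N) (mul_pos hpi hl2).le
  nlinarith

lemma log_two_le (hr : 1 ≤ r) {p θ : Fin r → ℝ} {M : ℝ} (hp : ∀ j, 0 ≤ p j)
    (hs : ∑ j, p j = r) (hθ : ∀ j, θ j ∈ Ioc (-π) π)
    (hM : ∀ t : ℝ, (∀ j, sin (t - θ j) ≠ 0) → (Zf p θ M ⟨0, t⟩).re ≤ 0) : log 2 ≤ M := by
  have hpi := pi_pos
  have hr0 : (0 : ℝ) < r := by exact_mod_cast hr
  have hr1 : (1 : ℝ) ≤ r := by exact_mod_cast hr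
  refine le_of_forall_pos_le_add fun c hc => ?_
  obtain ⟨ε, hε, hε1, hεc⟩ : ∃ ε : ℝ, 0 < ε ∧ ε ≤ 1 / 2 ∧ 10 * ε ≤ c :=
    ⟨min (1 / 2) (c / 10), by positivity, min_le_left _ _, by
      have := min_le_right (1 / 2 : ℝ) (c / 10); linarith⟩
  have t1 : Tendsto (fun S : ℝ => r * exp (-S)) atTop (𝓝 (r * 0)) :=
    Real.tendsto_exp_neg_atTop_nhds_zero.const_mul _
  have t2 : Tendsto (fun S : ℝ => r * S / 2 - M - 1) atTop atTop :=
    tendsto_atTop_add_const_right _ _ (tendsto_atTop_add_const_right _ _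
      ((tendsto_id.const_mul_atTop hr0).atTop_div_const two_pos))
  have t3 := Real.tendsto_exp_neg_atTop_nhds_zero.comp t2
  rw [mul_zero] at t1
  obtain ⟨S, ⟨hS, hη⟩, hT, hE⟩ := (((eventually_ge_atTop 0).and
    (t1.eventually (ge_mem_nhds hε))).and ((t2.eventually (eventually_ge_atTop 0)).and
    (t3.eventually (ge_mem_nhds hε)))).exists
  simp only [Function.comp] at hE
  have hES := exp_pos (-S)
  have hS2 : exp (-S) ≤ 1 / 2 := by nlinarith
  obtain ⟨x0, hx0⟩ : ∃ x0, x0 = r * S / 2 - M - 2 * (r * exp (-S)) := ⟨_, rfl⟩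
  obtain ⟨X, hX⟩ : ∃ X, X = r * S / 2 - M + r * exp (-S) := ⟨_, rfl⟩
  have hη0 : 0 < r * exp (-S) := by positivity
  have hx : 0 ≤ x0 := by linarith
  have he0 : exp (-x0) ≤ ε := (Real.exp_le_exp.mpr (by linarith)).trans hE
  have hlX : log (exp (2 * X) + 1) / 2 ≤ X + ε := by
    have e : exp (2 * X) + 1 = exp (2 * X) * (1 + exp (-(2 * X))) := by
      rw [mul_add, ← Real.exp_add]; simp
    have h5 := Real.log_le_sub_one_of_pos (x := 1 + exp (-(2 * X))) (by positivity)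
    have h6 : exp (-(2 * X)) ≤ ε := (Real.exp_le_exp.mpr (by linarith)).trans hE
    rw [e, Real.log_mul (by positivity) (by positivity), Real.log_exp]
    linarith
  set a := x0 + log 2 - exp (-x0) - ε - r / 4 * S with ha
  set b := log (exp (2 * X) + 1) / 2 + log 2 with hb
  have key : ∀ N : ℕ, 2 * a * N ≤ b * (N + 2) := fun N => by
    have := main_ineq hr hp hs hθ N hM hS hS2 hε (by linarith) hx0 hX hx
    rw [← ha, ← hb] at this
    have h2 : π * r * (2 * a * N) ≤ π * r * (b * (N + 2)) := by linarith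
    exact le_of_mul_le_mul_left h2 (by positivity)
  have hab : 2 * a ≤ b := by
    by_contra hc2
    push Not at hc2
    obtain ⟨N, hN⟩ := exists_nat_gt (2 * b / (2 * a - b))
    rw [div_lt_iff₀ (by linarith)] at hN
    linarith [key N]
  linarith

/-- Q1: the weighted product of distances is at least `2` somewhere on the unit circle. -/
theorem result (r : ℕ) (hr : 1 ≤ r) (z : Fin r → ℂ) (hz : ∀ j, ‖z j‖ = 1) (p : Fin r → ℝ)
    (hp : ∀ j, 0 ≤ p j) (hs : ∑ j, p j = r) :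
    ∃ w : ℂ, ‖w‖ = 1 ∧ 2 ≤ ∏ j, ‖w - z j‖ ^ p j := by
  have hF : Continuous fun w : ℂ => ∏ j, ‖w - z j‖ ^ p j :=
    continuous_finset_prod _ fun j _ =>
      (Real.continuous_rpow_const (hp j)).comp (by fun_prop)
  obtain ⟨w, hw, hmax⟩ := (isCompact_sphere (0 : ℂ) 1).exists_isMaxOn ⟨1, by simp⟩ hF.continuousOn
  refine ⟨w, by simpa using hw, ?_⟩
  set m := ∏ j, ‖w - z j‖ ^ p j with hm
  have hzj : ∀ j, z j = Complex.exp ((z j).arg * Complex.I) := fun j => by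
    have := Complex.norm_mul_exp_arg_mul_I (z j)
    rw [hz j] at this; simpa using this.symm
  have hgen : ∀ t : ℝ, (∀ j, sin (t - (z j).arg) ≠ 0) →
      0 < m ∧ (Zf p (fun j => (z j).arg) (log m) ⟨0, t⟩).re ≤ 0 := fun t hg => by
    have hn : ∀ j, ‖Complex.exp (t * Complex.I) - z j‖ =
        ‖1 - Complex.exp ((⟨0, t⟩ : ℂ) - (z j).arg * Complex.I)‖ := fun j => by
      have e : (⟨0, t⟩ : ℂ) = t * Complex.I := by apply Complex.ext <;> simp
      have h2 : Complex.exp (t * Complex.I) - z j =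
          -z j * (1 - Complex.exp (t * Complex.I - (z j).arg * Complex.I)) := by
        rw [Complex.exp_sub, ← hzj j]
        have : z j ≠ 0 := fun h => by have := hz j; rw [h] at this; simp at this
        field_simp; ring
      rw [h2, norm_mul, norm_neg, hz j, one_mul, e]
    have hpos : ∀ j, 0 < ‖Complex.exp (t * Complex.I) - z j‖ := fun j => by
      rw [hn j]
      exact norm_pos_iff.mpr (Complex.slitPlane_ne_zero (slit_of_sin (u := ⟨0, t⟩) (hg j)))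
    have hle : ∏ j, ‖Complex.exp (t * Complex.I) - z j‖ ^ p j ≤ m :=
      hmax (a := Complex.exp (t * Complex.I)) (by simp)
    have hP : 0 < ∏ j, ‖Complex.exp (t * Complex.I) - z j‖ ^ p j :=
      Finset.prod_pos fun j _ => Real.rpow_pos_of_pos (hpos j) _
    refine ⟨lt_of_lt_of_le hP hle, ?_⟩
    have hl := Real.log_le_log hP hle
    rw [Real.log_prod (fun j _ => (Real.rpow_pos_of_pos (hpos j) _).ne')] at hl
    rw [Zf_re]
    simp_rw [Real.log_rpow (hpos _), hn] at hl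
    simp only [mul_zero, zero_add]
    linarith
  obtain ⟨t0, ht0⟩ := (generic_ae fun j => (z j).arg).exists
  have hm0 := (hgen t0 ht0).1
  have := log_two_le hr hp hs (θ := fun j => (z j).arg) (fun j => Complex.arg_mem_Ioc _)
    (fun t ht => (hgen t ht).2)
  exact (Real.log_le_log_iff two_pos hm0).mp this

end Pool.Agent.Results.MP_280d4a_an.WeightedTwo
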